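import Pool.Agent.H97.HV.Targets2
import Pool.Agent.H97.PRK.All

/-!
# Row SV1 of hov_modules (MP_e37c09_lc): the argument of Solovay for the splitting points
-/

open Ordinal Cardinal Order Set
open scoped ZFSet

universe u

namespace Pool.Agent.H39.HV

open _root_.HD HD.PRK HD.HV

variable {δ η θ : Ordinal.{u}} {j : ZFSet.{u} → ZFSet.{u}}

theorem sv_eqv (hL : T_LAV.{u}) (h : Emb δ η θ j) {F x y : ZFSet.{u}} {i : Ordinal.{u}}
    (hF : F ∈ V_ η) (hx : x ∈ V_ η) (hy : y ∈ V_ η) (hi : i < η) :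
    Eqv F x y i ↔ Eqv (j F) (j x) (j y) (Jo j i) := by
  have h1 := h.trl hL.1 [F, x, y, i.toZFSet] (by simp [Gd.ord, hi, hx, hF, hy])
  have h2 : (i.toZFSet.IsOrdinal ∧ Eqv F x y i.toZFSet.rank) ↔
      ((j i.toZFSet).IsOrdinal ∧ Eqv (j F) (j x) (j y) (j i.toZFSet).rank) := h1
  rw [h.ord hi, rank_toZFSet, rank_toZFSet] at h2
  simpa [ZFSet.isOrdinal_toZFSet] using h2

theorem sv_agv (hL : T_LAV.{u}) (h : Emb δ η θ j) {F x y : ZFSet.{u}} {i : Ordinal.{u}}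
    (hF : F ∈ V_ η) (hx : x ∈ V_ η) (hy : y ∈ V_ η) (hi : i < η) :
    AgV F x y i ↔ AgV (j F) (j x) (j y) (Jo j i) := by
  have h1 := h.trl hL.2.1 [F, x, y, i.toZFSet] (by simp [Gd.ord, hi, hx, hF, hy])
  have h2 : (i.toZFSet.IsOrdinal ∧ AgV F x y i.toZFSet.rank) ↔
      ((j i.toZFSet).IsOrdinal ∧ AgV (j F) (j x) (j y) (j i.toZFSet).rank) := h1
  rw [h.ord hi, rank_toZFSet, rank_toZFSet] at h2
  simpa [ZFSet.isOrdinal_toZFSet] using h2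

theorem eqv_symm {F x y : ZFSet.{u}} {i : Ordinal.{u}} (h : Eqv F x y i) : Eqv F y x i :=
  fun a => (h a).symm

theorem eqv_trans {F x y z : ZFSet.{u}} {i : Ordinal.{u}} (h : Eqv F x y i) (h' : Eqv F y z i) :
    Eqv F x z i := fun a => (h a).trans (h' a)

theorem agv_symm {F x y : ZFSet.{u}} {i : Ordinal.{u}} (h : AgV F x y i) : AgV F y x i :=
  fun k hk => eqv_symm (h k hk)

theorem agv_trans {F x y z : ZFSet.{u}} {i : Ordinal.{u}} (h : AgV F x y i) (h' : AgV F y z i) :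
    AgV F x z i := fun k hk => eqv_trans (h k hk) (h' k hk)

theorem agv_succ {F x y : ZFSet.{u}} {i : Ordinal.{u}} :
    AgV F x y (succ i) ↔ AgV F x y i ∧ Eqv F x y i := by
  constructor
  · intro h
    exact ⟨fun k hk => h k (hk.trans (lt_succ i)), h i (lt_succ i)⟩
  · rintro ⟨h1, h2⟩ k hk
    rcases lt_or_eq_of_le (lt_succ_iff.1 hk) with h3 | rfl
    · exact h1 k h3
    · exact h2

theorem sv_agvs (hL : T_LAV.{u}) (h : Emb δ η θ j) {F x y : ZFSet.{u}} {i : Ordinal.{u}}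
    (hF : F ∈ V_ η) (hx : x ∈ V_ η) (hy : y ∈ V_ η) (hi : i < η) :
    AgV F x y (succ i) ↔ AgV (j F) (j x) (j y) (succ (Jo j i)) := by
  rw [agv_succ, agv_succ, sv_agv hL h hF hx hy hi, sv_eqv hL h hF hx hy hi]

/-- `a` is the least place of difference of `F` at `x` and at `y` -/
def lpd (a F x y : ZFSet.{u}) : Prop :=
  ¬ (a.IsOrdinal ∧ Eqv F x y a.rank) ∧ (a.IsOrdinal ∧ AgV F x y a.rank)

theorem lpd_loc (hL : T_LAV.{u}) : Loc.{u} fun v => lpd (v 0) (v 1) (v 2) (v 3) := by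
  have e1 := hL.1.ren fun n => if n = 0 then 1 else if n = 1 then 2 else if n = 2 then 3 else 0
  have e2 := hL.2.1.ren fun n => if n = 0 then 1 else if n = 1 then 2 else if n = 2 then 3 else 0
  exact (e1.not.and e2).congr fun v => Iff.rfl

theorem lpd_iff {F x y : ZFSet.{u}} {i : Ordinal.{u}} :
    lpd i.toZFSet F x y ↔ ¬ Eqv F x y i ∧ AgV F x y i := by
  unfold lpd
  rw [rank_toZFSet]
  simp [ZFSet.isOrdinal_toZFSet]

theorem lpd_uniq {F x y : ZFSet.{u}} {a b : Ordinal.{u}} (ha : lpd a.toZFSet F x y)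
    (hb : lpd b.toZFSet F x y) : a = b := by
  rw [lpd_iff] at ha hb
  rcases lt_trichotomy a b with h | h | h
  · exact absurd (hb.2 _ h) ha.1
  · exact h
  · exact absurd (ha.2 _ h) hb.1

theorem pair_fst_mem_V {η : Ordinal.{u}} {b y : ZFSet.{u}} (h1 : ZFSet.pair b y ∈ V_ η) :
    b ∈ V_ η := by
  have h2 : {b, y} ∈ ZFSet.pair b y := by
    unfold ZFSet.pair
    simp
  have h3 : b ∈ ({b, y} : ZFSet.{u}) := by simp
  exact mem_V_of_mem h3 (mem_V_of_mem h2 h1)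

theorem lpd_ex (hL : T_LAV.{u}) (h : Emb δ η θ j) {F x y : ZFSet.{u}} {i : Ordinal.{u}}
    (hF : F ∈ V_ η) (hx : x ∈ V_ η) (hy : y ∈ V_ η)
    (hR : lpd i.toZFSet (j F) (j x) (j y)) : ∃ i0 < η, i = Jo j i0 := by
  have hi : i.toZFSet ∈ V_ θ := by
    have h1 := (lpd_iff.1 hR).1
    unfold Eqv at h1
    push Not at h1
    obtain ⟨a, ha | ha⟩ := h1
    · exact pair_fst_mem_V (snd_mem_V ha.1 (h.map _ hF))
    · exact pair_fst_mem_V (snd_mem_V ha.2 (h.map _ hF))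
  obtain ⟨a, ha, hRa⟩ := (h.trl_ex (R := fun a v => lpd a (v 0) (v 1) (v 2)) (lpd_loc hL)
    [F, x, y] (by simp [hx, hy, hF])).2 ⟨i.toZFSet, hi, hR⟩
  have hRa' : lpd a F x y := hRa
  have hao : a.rank.toZFSet = a := hRa'.2.1.toZFSet_rank_eq
  have haη : a.rank < η := by rwa [← hao, Gd.ord] at ha
  refine ⟨a.rank, haη, ?_⟩
  have h3 := (h.trl (lpd_loc hL) [a, F, x, y] (by simp [ha, hx, hy, hF])).1 hRa'
  have h4 : lpd (j a) (j F) (j x) (j y) := h3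
  rw [← hao, h.ord haη] at h4
  exact lpd_uniq hR h4

theorem sms_sub {μ ρ : Ordinal.{u}} {C : Set Ordinal.{u}} {x : ZFSet.{u}} (h : SmS μ ρ C x) :
    x ⊆ ρ.toZFSet := by
  intro z hz
  obtain ⟨a, ha, -, -, rfl⟩ := h.mem z hz
  exact toZFSet_mem_toZFSet_iff.2 ha

/-- Row SV1 of the board hov_modules. -/
theorem pf_SV1 (hL : T_LAV.{u}) : T_SV1.{u} := by
  intro δ η θ j K μ ρ F hs i
  have hj := hs.emb
  have hF := hs.fη
  constructor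
  · rintro ⟨x, -, y, -, px, py, hA, hE⟩
    have hu : Clb K.ord (univ : Set Ordinal.{u}) := by
      refine ⟨fun a ha => ⟨succ a, ?_, lt_succ a, mem_univ _⟩, fun _ _ _ _ => mem_univ _⟩
      exact (Cardinal.isSuccLimit_ord hs.kreg.1).succ_lt ha
    obtain ⟨E, hE1, hE2⟩ := Pool.Agent.H97.PRK.a_SJ2 _ _ _ _ _ _ _ _ hs _ hu
    obtain ⟨z1, hz1, ax⟩ := px E hE1
    obtain ⟨z2, hz2, ay⟩ := py E hE1
    obtain ⟨x1, sx1, hx1, rfl⟩ := hE2 _ hz1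
    obtain ⟨y1, sy1, hy1, rfl⟩ := hE2 _ hz2
    have hEi : ¬ Eqv (j F) (j x1) (j y1) i := fun hc =>
      hE (eqv_trans (eqv_symm (agv_succ.1 ax).2) (eqv_trans hc (agv_succ.1 ay).2))
    have hAi : AgV (j F) (j x1) (j y1) i :=
      agv_trans (agv_succ.1 ax).1 (agv_trans hA (agv_symm (agv_succ.1 ay).1))
    obtain ⟨i0, hi0, rfl⟩ := lpd_ex hL hj hF hx1 hy1 (lpd_iff.2 ⟨hEi, hAi⟩)
    refine ⟨i0, hi0, rfl, x1, sms_sub sx1, y1, sms_sub sy1, fun C hC => ?_, fun C hC => ?_,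
      (sv_agv hL hj hF hx1 hy1 hi0).2 hAi, fun hc => hEi ((sv_eqv hL hj hF hx1 hy1 hi0).1 hc)⟩
    · obtain ⟨E', hE1', hE2'⟩ := Pool.Agent.H97.PRK.a_SJ2 _ _ _ _ _ _ _ _ hs _ hC
      obtain ⟨z, hz, hzA⟩ := px E' hE1'
      obtain ⟨x2, sx2, hx2, rfl⟩ := hE2' _ hz
      exact ⟨x2, sx2, (sv_agvs hL hj hF hx2 hx1 hi0).2 (agv_trans hzA (agv_symm ax))⟩
    · obtain ⟨E', hE1', hE2'⟩ := Pool.Agent.H97.PRK.a_SJ2 _ _ _ _ _ _ _ _ hs _ hC
      obtain ⟨z, hz, hzA⟩ := py E' hE1'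
      obtain ⟨x2, sx2, hx2, rfl⟩ := hE2' _ hz
      exact ⟨x2, sx2, (sv_agvs hL hj hF hx2 hy1 hi0).2 (agv_trans hzA (agv_symm ay))⟩
  · rintro ⟨i0, hi0, rfl, x, -, y, -, px, py, hA, hE⟩
    have hu : Clb ρ (univ : Set Ordinal.{u}) := by
      refine ⟨fun a ha => ?_, fun _ _ _ _ => mem_univ _⟩
      obtain ⟨c, hc, hac⟩ := hs.r2 a ha
      exact ⟨Jo j c, hs.r1 c hc, hac, mem_univ _⟩
    obtain ⟨C0, hC0, hC02⟩ := Pool.Agent.H97.PRK.a_SJ1 _ _ _ _ _ _ _ _ hs _ hu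
    obtain ⟨x1, sx1, ax⟩ := px C0 hC0
    obtain ⟨y1, sy1, ay⟩ := py C0 hC0
    obtain ⟨hx1, tx1⟩ := hC02 _ sx1
    obtain ⟨hy1, ty1⟩ := hC02 _ sy1
    have hEi : ¬ Eqv F x1 y1 i0 := fun hc =>
      hE (eqv_trans (eqv_symm (agv_succ.1 ax).2) (eqv_trans hc (agv_succ.1 ay).2))
    have hAi : AgV F x1 y1 i0 :=
      agv_trans (agv_succ.1 ax).1 (agv_trans hA (agv_symm (agv_succ.1 ay).1))
    refine ⟨j x1, sms_sub tx1, j y1, sms_sub ty1, fun E hE' => ?_, fun E hE' => ?_,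
      (sv_agv hL hj hF hx1 hy1 hi0).1 hAi, fun hc => hEi ((sv_eqv hL hj hF hx1 hy1 hi0).2 hc)⟩
    · obtain ⟨C, hC, hC2⟩ := Pool.Agent.H97.PRK.a_SJ1 _ _ _ _ _ _ _ _ hs _ hE'
      obtain ⟨x2, sx2, ax2⟩ := px C hC
      obtain ⟨hx2, tx2⟩ := hC2 _ sx2
      exact ⟨j x2, tx2, (sv_agvs hL hj hF hx2 hx1 hi0).1 (agv_trans ax2 (agv_symm ax))⟩
    · obtain ⟨C, hC, hC2⟩ := Pool.Agent.H97.PRK.a_SJ1 _ _ _ _ _ _ _ _ hs _ hE'
      obtain ⟨x2, sx2, ax2⟩ := py C hC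
      obtain ⟨hx2, tx2⟩ := hC2 _ sx2
      exact ⟨j x2, tx2, (sv_agvs hL hj hF hx2 hy1 hi0).1 (agv_trans ax2 (agv_symm ay))⟩

end Pool.Agent.H39.HV
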